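import Mathlib

set_option autoImplicit false

open Topology Filter

namespace Pool.Agent.Results.MP_67c2f3_gt.DirectSummandNotTChar

/-- A sequence in an abelian group is a T-sequence if some Hausdorff group topology makes it
converge to `0`. -/
def IsTSequence {G : Type} [AddCommGroup G] (v : ℕ → G) : Prop :=
  ∃ τ : TopologicalSpace G, @IsTopologicalAddGroup G τ _ ∧ @T2Space G τ ∧
    Tendsto v atTop (@nhds G τ 0)

/-- A subgroup `H` of `X` is T-characterized if `H = {x : v_n(x) → 0}` for some sequence of
continuous characters which is a T-sequence in the abstract dual group. -/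
def TCharacterized {X : Type} [AddCommGroup X] [TopologicalSpace X] [IsTopologicalAddGroup X]
    (H : AddSubgroup X) : Prop :=
  ∃ v : ℕ → (X →ₜ+ UnitAddCircle), IsTSequence v ∧
    ∀ x : X, x ∈ H ↔ Tendsto (fun n => v n x) atTop (𝓝 0)

/-- A topological abelian group is autocharacterized if some sequence of continuous characters
which is not eventually zero converges pointwise to zero everywhere. -/
def Autocharacterized (Y : Type) [AddCommGroup Y] [TopologicalSpace Y]
    [IsTopologicalAddGroup Y] : Prop :=
  ∃ u : ℕ → (Y →ₜ+ UnitAddCircle), (¬ ∀ᶠ n in atTop, u n = 0) ∧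
    ∀ y : Y, Tendsto (fun n => u n y) atTop (𝓝 0)

/-- `H` is a topological direct summand of `X`: for some subgroup `Z` the addition map
`H × Z → X` is an isomorphism of topological groups. -/
def IsTopDirectSummand {X : Type} [AddCommGroup X] [TopologicalSpace X]
    (H : AddSubgroup X) : Prop :=
  ∃ Z : AddSubgroup X, Function.Bijective (fun p : H × Z => (p.1 : X) + (p.2 : X)) ∧
    IsHomeomorph (fun p : H × Z => (p.1 : X) + (p.2 : X))

/-- The sequences in `ZMod 2` which are eventually zero. -/
def H0 : AddSubgroup (ℕ → ZMod 2) where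
  carrier := {f | ∀ᶠ n in atTop, f n = 0}
  zero_mem' := by simp
  add_mem' := by
    intro a b ha hb
    filter_upwards [ha, hb] with n h1 h2
    simp [h1, h2]
  neg_mem' := by
    intro a ha
    filter_upwards [ha] with n h1
    simp [h1]

abbrev X0 := H0 × ZMod 3

def HH : AddSubgroup X0 := (AddMonoidHom.snd H0 (ZMod 3)).ker

def ZZ : AddSubgroup X0 := (AddMonoidHom.fst H0 (ZMod 3)).ker

lemma mem_HH (x : X0) : x ∈ HH ↔ x.2 = 0 := Iff.rfl
lemma mem_ZZ (x : X0) : x ∈ ZZ ↔ x.1 = 0 := Iff.rfl

lemma isOpen_HH : IsOpen (HH : Set X0) := by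
  have : (HH : Set X0) = Prod.snd ⁻¹' {0} := by
    ext x; simp [mem_HH]
  rw [this]
  exact (isOpen_discrete _).preimage continuous_snd

lemma finiteIndex_HH : HH.FiniteIndex := by
  unfold HH
  infer_instance

/-- coordinate characters -/
noncomputable def coordChar (n : ℕ) : HH →ₜ+ UnitAddCircle where
  toFun h := ZMod.toAddCircle (h.1.1.1 n)
  map_zero' := by simp
  map_add' := by intro a b; simp
  continuous_toFun := by
    have : Continuous (ZMod.toAddCircle : ZMod 2 → UnitAddCircle) := continuous_of_discreteTopology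
    refine this.comp ?_
    refine (continuous_apply n).comp ?_
    exact continuous_subtype_val.comp (continuous_fst.comp continuous_subtype_val)

lemma autochar_HH : Autocharacterized HH := by
  refine ⟨coordChar, ?_, ?_⟩
  · intro h
    obtain ⟨n, hn⟩ := h.exists
    have hmem : Pi.single n (1 : ZMod 2) ∈ H0 := by
      show ∀ᶠ m in atTop, (Pi.single n (1 : ZMod 2) : ℕ → ZMod 2) m = 0
      filter_upwards [eventually_gt_atTop n] with m hm
      exact Pi.single_eq_of_ne hm.ne' _
    have h1 := DFunLike.congr_fun hn (⟨(⟨Pi.single n (1 : ZMod 2), hmem⟩, 0), rfl⟩ : HH)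
    have h2 : ZMod.toAddCircle ((Pi.single n (1 : ZMod 2) : ℕ → ZMod 2) n) = 0 := h1
    rw [Pi.single_eq_same, ZMod.toAddCircle_eq_zero] at h2
    exact absurd h2 (by decide)
  · intro y
    have hy : ∀ᶠ n in atTop, y.1.1.1 n = 0 := y.1.1.2
    refine tendsto_const_nhds.congr' ?_
    filter_upwards [hy] with n hn
    show (0 : UnitAddCircle) = ZMod.toAddCircle (y.1.1.1 n)
    rw [hn, map_zero]

lemma summand_HH : IsTopDirectSummand HH := by
  let g : X0 → HH × ZZ := fun x => (⟨(x.1, 0), rfl⟩, ⟨(0, x.2), rfl⟩)
  have hg : Continuous g := by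
    refine Continuous.prodMk ?_ ?_
    · exact Continuous.subtype_mk (by fun_prop) _
    · exact Continuous.subtype_mk (by fun_prop) _
  let e : (HH × ZZ) ≃ₜ X0 :=
    { toFun := fun p : HH × ZZ => (p.1 : X0) + (p.2 : X0)
      invFun := g
      left_inv := by
        rintro ⟨⟨⟨a, b⟩, ha⟩, ⟨⟨c, d⟩, hc⟩⟩
        have hb : b = 0 := ha
        have hc' : c = 0 := hc
        subst hb hc'
        simp [g]
      right_inv := by
        rintro ⟨a, b⟩
        simp [g]
      continuous_toFun := by fun_prop
      continuous_invFun := hg }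
  exact ⟨ZZ, e.bijective, e.isHomeomorph⟩

lemma two_app (w : X0 →ₜ+ UnitAddCircle) (x : X0) : (2 • w) x = 2 • w x := by
  rw [two_nsmul, two_nsmul]
  rfl

lemma not_TChar_HH : ¬ TCharacterized HH := by
  rintro ⟨v, ⟨τ, h1, h2, hv⟩, hvH⟩
  let _ := τ
  have _ := h1
  have _ := h2
  -- `2 v_n` tends to zero and has finite range
  have h2v : Tendsto (fun n => 2 • v n) atTop (𝓝 0) := by
    have := hv.const_smul 2
    simpa using this
  -- value on an element
  have key : ∀ n, ∀ x : X0, (2 • v n) x = (x.2.val) • ((2 • v n) (0, 1)) := by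
    intro n x
    have hx : x = (x.1, 0) + x.2.val • ((0 : H0), (1 : ZMod 3)) := by
      ext
      · simp
      · simp
    have hz : (2 • v n) (x.1, 0) = 0 := by
      have : (2 • v n) (x.1, 0) = v n (2 • (x.1, 0)) := by
        rw [map_nsmul, two_app]
      rw [this]
      have h0 : 2 • ((x.1, 0) : X0) = 0 := by
        ext m
        · show (2 • (x.1.1)) m = 0
          have : ∀ t : ZMod 2, 2 • t = 0 := by decide
          exact this _
        · simp
      rw [h0, map_zero]
    conv_lhs => rw [hx, map_add, map_nsmul, hz, zero_add]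
  have hfin : (Set.range fun n => 2 • v n).Finite := by
    have hinj : Set.InjOn (fun χ : X0 →ₜ+ UnitAddCircle => χ (0, 1))
        (Set.range fun n => 2 • v n) := by
      rintro _ ⟨n, rfl⟩ _ ⟨m, rfl⟩ h
      ext x
      show (2 • v n) x = (2 • v m) x
      rw [key n x, key m x]
      have h' : (2 • v n) (0, 1) = (2 • v m) (0, 1) := h
      rw [h']
    refine Set.Finite.of_finite_image ?_ hinj
    refine (AddCircle.finite_torsion (p := (1 : ℝ)) (n := 3) (by norm_num)).subset ?_
    rintro _ ⟨_, ⟨n, rfl⟩, rfl⟩
    show 3 • ((2 • v n) (0, 1)) = 0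
    rw [← map_nsmul]
    have : 3 • ((0 : H0), (1 : ZMod 3)) = 0 := by
      ext
      · simp
      · show 3 • (1 : ZMod 3) = 0
        decide
    rw [this, map_zero]
  -- so eventually zero
  have hev : ∀ᶠ n in atTop, 2 • v n = 0 := by
    have hcl : IsClosed ((Set.range fun n => 2 • v n) \ {0}) :=
      (hfin.subset Set.sdiff_subset).isClosed
    have hmem : ((Set.range fun n => 2 • v n) \ {0})ᶜ ∈ 𝓝 (0 : X0 →ₜ+ UnitAddCircle) :=
      hcl.isOpen_compl.mem_nhds (by simp)
    filter_upwards [h2v hmem] with n hn
    by_contra hne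
    exact hn ⟨⟨n, rfl⟩, hne⟩
  have hmem : ((0, 1) : X0) ∈ HH := by
    rw [hvH]
    refine tendsto_const_nhds.congr' ?_
    filter_upwards [hev] with n hn
    have h2 : 2 • v n (0, 1) = 0 := by
      have := DFunLike.congr_fun hn ((0, 1) : X0)
      rw [two_app] at this
      exact this
    have h3 : 3 • v n (0, 1) = 0 := by
      rw [← map_nsmul]
      have : 3 • ((0 : H0), (1 : ZMod 3)) = 0 := by
        ext
        · simp
        · show 3 • (1 : ZMod 3) = 0
          decide
      rw [this, map_zero]
    have h4 : 3 • v n (0, 1) = 2 • v n (0, 1) + v n (0, 1) := by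
      rw [succ_nsmul]
    rw [h3, h2, zero_add] at h4
    exact h4
  rw [mem_HH] at hmem
  exact absurd hmem (by decide)

/-- Both implications fail: there are a Hausdorff topological abelian group `X` and an open
subgroup `H` of finite index which is autocharacterized and a topological direct summand of `X`,
but is not T-characterized in `X`. -/
theorem result :
    ∃ (X : Type) (_ : AddCommGroup X) (_ : TopologicalSpace X) (_ : IsTopologicalAddGroup X)
      (H : AddSubgroup X),
      T2Space X ∧ IsOpen (H : Set X) ∧ H.FiniteIndex ∧ Autocharacterized H ∧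
        IsTopDirectSummand H ∧ ¬ TCharacterized H :=
  ⟨X0, inferInstance, inferInstance, inferInstance, HH, inferInstance, isOpen_HH,
    finiteIndex_HH, autochar_HH, summand_HH, not_TChar_HH⟩

end Pool.Agent.Results.MP_67c2f3_gt.DirectSummandNotTChar
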